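import Pool.Agent.H45.LG.Val

/-!
# LG: case II, the bound for one chart
-/

open Polynomial
open Pool.Agent.H23 (RatForm regularForms PrimeDivisorOver fc dualDer)
open Pool.Agent.LG

set_option linter.unusedSectionVars false

noncomputable section

namespace Pool.Agent.H45.LG

variable {K : Type} [Field K] [Algebra ℂ K] {k n D : ℕ} {ι : Type}

theorem disc_map {F F' : Type*} [Field F] [Field F'] (φ : F →+* F') (r : ℕ) (P : F[X]) :
    disc r (P.map φ) = φ (disc r P) := by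
  rw [disc, disc, ← resultant_map_map]
  congr 1
  · rw [derivative_map]
  · rw [Polynomial.map_sub, Polynomial.map_mul, Polynomial.map_mul, derivative_map, map_C, map_X]
    simp

theorem disc_mem {L : IntermediateField ℂ K} {P : K[X]} (hP : ∀ i, P.coeff i ∈ L) (r : ℕ) : disc r P ∈ L := by
  obtain ⟨p, rfl⟩ : ∃ p : L[X], p.map (algebraMap L K) = P := by
    have : P ∈ Polynomial.lifts (algebraMap L K) := by
      rw [lifts_iff_coeff_lifts]
      intro n
      exact ⟨⟨P.coeff n, hP n⟩, rfl⟩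
    exact (mem_lifts P).1 this
  rw [disc_map]
  exact (disc r p).2

theorem av_pow_nonneg (V : AddValuation K (WithTop ℤ)) {Q : K[X]} (hQ : ∀ i, 0 ≤ V (Q.coeff i)) (m : ℕ) :
    ∀ l, 0 ≤ V ((Q ^ m).coeff l) := by
  induction m with
  | zero =>
    intro l
    rw [pow_zero, coeff_one]
    split_ifs
    · rw [AddValuation.map_one]
    · rw [AddValuation.map_zero]
      exact le_top
  | succ m ih =>
    intro l
    rw [pow_succ, coeff_mul]
    refine V.map_le_sum fun i _ => ?_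
    rw [V.map_mul]
    exact add_nonneg (ih _) (hQ _)

theorem sn_dd (x : Fin k → K) (y : K) : (sn (fun i => dd (x i)) (dd y)) = fun i => dd (sn x y i) := by
  funext i
  refine Fin.lastCases ?_ (fun i => ?_) i
  · simp [sn]
  · simp [sn]

theorem algInd_of_sn {x : Fin k → K} {y : K} (h : wd (sn (fun i => dd (x i)) (dd y)) ≠ 0) : AlgebraicIndependent ℂ x := by
  rw [sn_dd] at h
  have h1 := algInd_of_wd h
  have h2 := h1.comp Fin.castSucc (Fin.castSucc_injective k)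
  have h3 : sn x y ∘ Fin.castSucc = x := by
    funext i
    simp [sn]
  rwa [h3] at h2

/-- a polynomial which bounds the orders of finitely many algebraic elements -/
theorem le_of_dvd {x : Fin k → K} (hx : AlgebraicIndependent ℂ x) {v : K → ℤ} (hv : IV K v) (h0 : ∀ i, x i ≠ 0 → 0 ≤ v (x i))
    {p q : MvPolynomial (Fin k) ℂ} (hp : p ≠ 0) (hqp : q ∣ p) : v (MvPolynomial.aeval x q) ≤ v (MvPolynomial.aeval x p) := by
  obtain ⟨s, rfl⟩ := hqp
  have hne : ∀ {q : MvPolynomial (Fin k) ℂ}, q ≠ 0 → MvPolynomial.aeval x q ≠ 0 := by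
    intro q hq h
    exact hq ((AlgebraicIndependent.eq_zero_of_aeval_eq_zero hx _ h))
  have h1 := hne (left_ne_zero_of_mul hp)
  have h2 := hne (right_ne_zero_of_mul hp)
  rw [map_mul, hv.mul h1 h2]
  have := iv_aeval_nonneg hv h0 s h2
  linarith

/-- the bound for one chart -/
theorem chart_bound {z : Fin (k + 1) → K} (hz : IsTranscendenceBasis ℂ z) [Fintype ι] (S : Dat K ι n D) (hF : S.P ≠ 0)
    (htr : Transcendental (IntermediateField.adjoin ℂ (Set.range S.X)) S.w) {r M : ℕ} {R : K[X]} (hr : 3 ≤ r) (hM : 1 ≤ M)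
    (hmem : ∀ i, R.coeff i ∈ IntermediateField.adjoin ℂ (Set.range S.X)) (hne : disc r R ≠ 0) (hle : R.natDegree ≤ r)
    (hdvd : R ∣ S.P) (hpow : S.P ∣ R ^ M) {c : ι} (hc : S.X c ≠ 0) {J : Fin k → ι}
    (hJ : wd (sn (fun i => dd (S.X (J i) / S.X c)) (dd S.w)) ≠ 0) :
    ∃ N : ℤ, 1 ≤ N ∧ ∀ (v : K → ℤ) (o : RatForm K (k + 1) → ℤ), FV (k + 1) v o → CH S v c → 0 ≤ v S.w →
      0 ≤ v (disc r R / R.eval S.w ^ (2 * r - 2)) + (r * (r - 1) : ℕ) * (o (wd (sn (fun i => dd (S.X (J i) / S.X c)) (dd S.w))) + 1) ∧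
      v (S.P.eval S.w) - v (S.X c) ≤
        N * (v (disc r R / R.eval S.w ^ (2 * r - 2)) + (r * (r - 1) : ℕ) * (o (wd (sn (fun i => dd (S.X (J i) / S.X c)) (dd S.w))) + 1)) ∧
      0 ≤ v (S.P.eval S.w) - v (S.X c) ∧
      (v (S.P.eval S.w) = v (S.X c) → 0 ≤ v (disc r R / R.eval S.w ^ (2 * r - 2)) ∧
        0 ≤ o (wd (sn (fun i => dd (S.X (J i) / S.X c)) (dd S.w)))) := by
  classical
  haveI : CharZero K := charZero_of_injective_algebraMap (algebraMap ℂ K).injective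
  obtain ⟨L, hL⟩ : ∃ L, L = IntermediateField.adjoin ℂ (Set.range S.X) := ⟨_, rfl⟩
  rw [← hL] at htr hmem
  obtain ⟨x, hx⟩ : ∃ x : Fin k → K, x = fun i => S.X (J i) / S.X c := ⟨_, rfl⟩
  have hXL : ∀ b, S.X b ∈ L := fun b => by
    rw [hL]
    exact IntermediateField.subset_adjoin _ _ ⟨b, rfl⟩
  have hxL : ∀ i, x i ∈ L := fun i => by
    rw [hx]
    exact div_mem (hXL _) (hXL _)
  have hJ' : wd (sn (fun i => dd (x i)) (dd S.w)) ≠ 0 := by
    rw [hx]
    exact hJ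
  have hform : wd (sn (fun i => dd (S.X (J i) / S.X c)) (dd S.w)) = wd (sn (fun i => dd (x i)) (dd S.w)) := by rw [hx]
  rw [hform]
  have hPc : ∀ i, S.P.coeff i ≠ 0 → ∃ b, S.P.coeff i = S.X b := by
    intro i hi
    rw [Dat.P, finsetSum_coeff] at hi ⊢
    simp only [coeff_C_mul, coeff_X_pow, mul_ite, mul_one, mul_zero] at hi ⊢
    by_cases hiD : i < D + 1
    · refine ⟨S.cf ⟨i, hiD⟩, ?_⟩
      rw [Finset.sum_eq_single ⟨i, hiD⟩]
      · simp
      · intro b _ hb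
        rw [if_neg]
        intro h
        exact hb (Fin.ext h.symm)
      · simp
    · exfalso
      apply hi
      refine Finset.sum_eq_zero fun b _ => ?_
      rw [if_neg]
      have := b.2
      omega
  have hPL : ∀ i, S.P.coeff i ∈ L := by
    intro i
    by_cases hi : S.P.coeff i = 0
    · rw [hi]
      exact zero_mem L
    · obtain ⟨b, hb⟩ := hPc i hi
      rw [hb]
      exact hXL b
  have hR0 : R ≠ 0 := fun h => hF (by rw [h] at hdvd; exact zero_dvd_iff.1 hdvd)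
  have hw0 : S.w ≠ 0 := by
    intro h
    rw [h] at htr
    exact htr (isAlgebraic_zero)
  have hPw : S.P.eval S.w ≠ 0 := eval_ne_zero htr hPL hF
  have hRw : R.eval S.w ≠ 0 := eval_ne_zero htr hmem hR0
  have hxi := algInd_of_sn hJ'
  have hxne : ∀ i, x i ≠ 0 := fun i => hxi.ne_zero i
  -- the polynomials
  have key : ∀ h ∈ L, h ≠ 0 → ∃ p : MvPolynomial (Fin k) ℂ, p ≠ 0 ∧ ∀ v : K → ℤ, IV K v → (∀ i, x i ≠ 0 → 0 ≤ v (x i)) →
      0 ≤ v h → v h ≤ v (MvPolynomial.aeval x p) :=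
    fun h hh h0 => exists_pbound hxi h0 (tr_alg hz htr hxL hJ' hh)
  have key1 : ∀ j, ∃ p : MvPolynomial (Fin k) ℂ, p ≠ 0 ∧ (R.coeff j ≠ 0 → ∀ v : K → ℤ, IV K v → (∀ i, x i ≠ 0 → 0 ≤ v (x i)) →
      0 ≤ v (disc r (C (R.coeff j)⁻¹ * R)) → v (disc r (C (R.coeff j)⁻¹ * R)) ≤ v (MvPolynomial.aeval x p)) := by
    intro j
    by_cases hj : R.coeff j = 0
    · exact ⟨1, one_ne_zero, fun h => absurd hj h⟩
    · have h1 : disc r (C (R.coeff j)⁻¹ * R) ≠ 0 := by
        rw [disc_C_mul]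
        exact mul_ne_zero (pow_ne_zero _ (inv_ne_zero hj)) hne
      have h2 : disc r R ∈ L := disc_mem hmem r
      have h3 : disc r (C (R.coeff j)⁻¹ * R) ∈ L := by
        rw [disc_C_mul]
        exact mul_mem (pow_mem (inv_mem (hmem j)) _) h2
      obtain ⟨p, hp, hp'⟩ := key _ h3 h1
      exact ⟨p, hp, fun _ => hp'⟩
  have key2 : ∀ i, ∃ p : MvPolynomial (Fin k) ℂ, p ≠ 0 ∧ (S.P.coeff i ≠ 0 → ∀ v : K → ℤ, IV K v → (∀ i, x i ≠ 0 → 0 ≤ v (x i)) →
      0 ≤ v ((S.X c)⁻¹ * S.P.coeff i) → v ((S.X c)⁻¹ * S.P.coeff i) ≤ v (MvPolynomial.aeval x p)) := by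
    intro i
    by_cases hi : S.P.coeff i = 0
    · exact ⟨1, one_ne_zero, fun h => absurd hi h⟩
    · obtain ⟨p, hp, hp'⟩ := key _ (mul_mem (inv_mem (hXL c)) (hPL i)) (mul_ne_zero (inv_ne_zero hc) hi)
      exact ⟨p, hp, fun _ => hp'⟩
  choose p1 hp1 hp1' using key1
  choose p2 hp2 hp2' using key2
  obtain ⟨p, hp⟩ : ∃ p : MvPolynomial (Fin k) ℂ, p = (∏ j ∈ Finset.range (r + 1), p1 j) * ∏ i ∈ Finset.range (S.P.natDegree + 1), p2 i := ⟨_, rfl⟩
  have hp0 : p ≠ 0 := by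
    rw [hp]
    exact mul_ne_zero (Finset.prod_ne_zero_iff.2 fun j _ => hp1 j) (Finset.prod_ne_zero_iff.2 fun j _ => hp2 j)
  have hd1 : ∀ j ≤ r, p1 j ∣ p := fun j hj => by
    rw [hp]
    exact (Finset.dvd_prod_of_mem _ (Finset.mem_range.2 (by omega))).mul_right _
  have hd2 : ∀ j ≤ S.P.natDegree, p2 j ∣ p := fun j hj => by
    rw [hp]
    exact (Finset.dvd_prod_of_mem _ (Finset.mem_range.2 (by omega))).mul_left _
  obtain ⟨μ, hμ⟩ : ∃ μ : ℕ, μ = max 1 p.totalDegree := ⟨_, rfl⟩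
  have hμ1 : 1 ≤ μ := by rw [hμ]; exact le_max_left _ _
  have hμp : p.totalDegree ≤ μ := by rw [hμ]; exact le_max_right _ _
  refine ⟨M * (1 + 2 * μ), ?_, ?_⟩
  · have h1 : (1 : ℤ) ≤ M := by exact_mod_cast hM
    have h2 : (1 : ℤ) ≤ μ := by exact_mod_cast hμ1
    nlinarith
  intro v o h hch hvw
  have hv := h.toIV
  obtain ⟨V, hV⟩ : ∃ V : AddValuation K (WithTop ℤ), V = av hv := ⟨_, rfl⟩
  have hVne : ∀ {a : K}, a ≠ 0 → V a = (v a : WithTop ℤ) := fun ha => by rw [hV, av_of_ne hv ha]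
  have hVnn : ∀ {a : K}, (a ≠ 0 → 0 ≤ v a) → 0 ≤ V a := fun ha => by rw [hV]; exact av_nonneg hv ha
  have hVof : ∀ {a : K}, 0 ≤ V a → a ≠ 0 → 0 ≤ v a := fun h1 h2 => by rw [hV] at h1; exact of_av_nonneg hv h1 h2
  have hVw : 0 ≤ V S.w := hVnn fun _ => hvw
  have hvx : ∀ i, 0 ≤ v (x i) := by
    intro i
    have h1 : S.X (J i) ≠ 0 := by
      intro h0
      apply hxne i
      rw [hx]
      simp [h0]
    rw [hx]
    simp only
    rw [iv_div hv h1 hc]
    have := hch.le _ h1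
    linarith
  have hvx' : ∀ i, x i ≠ 0 → 0 ≤ v (x i) := fun i _ => hvx i
  -- the primitive multiple of `R`
  obtain ⟨j, hj0, hjmin⟩ := exists_min_coeff v hR0
  have hjr : j ≤ r := (le_natDegree_of_ne_zero hj0).trans hle
  obtain ⟨Q, hQ⟩ : ∃ Q : K[X], Q = C (R.coeff j)⁻¹ * R := ⟨_, rfl⟩
  have hQ0 : Q ≠ 0 := by
    rw [hQ]
    exact mul_ne_zero (by simpa using hj0) hR0
  have hQd : Q.natDegree = R.natDegree := by
    rw [hQ]
    exact natDegree_C_mul (inv_ne_zero hj0)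
  have hQL : ∀ i, Q.coeff i ∈ L := fun i => by
    rw [hQ, coeff_C_mul]
    exact mul_mem (inv_mem (hmem j)) (hmem i)
  have hQnn : ∀ i, 0 ≤ V (Q.coeff i) := by
    intro i
    refine hVnn fun hi => ?_
    rw [hQ, coeff_C_mul] at hi ⊢
    have h1 : R.coeff i ≠ 0 := right_ne_zero_of_mul hi
    rw [hv.mul (inv_ne_zero hj0) h1, iv_inv hv hj0]
    have := hjmin i h1
    linarith
  have hQj : V (Q.coeff j) = 0 := by
    rw [hQ, coeff_C_mul, inv_mul_cancel₀ hj0, AddValuation.map_one]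
  have hQw : Q.eval S.w = (R.coeff j)⁻¹ * R.eval S.w := by
    rw [hQ, eval_mul, eval_C]
  have hQw0 : Q.eval S.w ≠ 0 := by
    rw [hQw]
    exact mul_ne_zero (inv_ne_zero hj0) hRw
  have hQdisc : disc r Q ≠ 0 := by
    rw [hQ, disc_C_mul]
    exact mul_ne_zero (pow_ne_zero _ (inv_ne_zero hj0)) hne
  have hf : disc r R / R.eval S.w ^ (2 * r - 2) = disc r Q / Q.eval S.w ^ (2 * r - 2) := by
    rw [hQw, hQ, disc_C_mul, mul_pow, mul_div_mul_left _ _ (pow_ne_zero _ (inv_ne_zero hj0))]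
  have hvf : v (disc r R / R.eval S.w ^ (2 * r - 2)) = v (disc r Q) - (2 * r - 2 : ℕ) * v (Q.eval S.w) := by
    rw [hf, iv_div hv hQdisc (pow_ne_zero _ hQw0), iv_pow hv hQw0]
  rw [hvf]
  -- the Taylor coefficients
  obtain ⟨c', hc'⟩ : ∃ c' : ℕ → K, ∀ l, c' l = (taylor S.w Q).coeff l := ⟨fun l => (taylor S.w Q).coeff l, fun _ => rfl⟩
  have hc'h : ∀ l, c' l = (hasseDeriv l Q).eval S.w := fun l => by rw [hc', taylor_coeff]
  have hc'0 : c' 0 = Q.eval S.w := by rw [hc', taylor_coeff_zero]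
  have hc'n : ∀ l ≤ R.natDegree, c' l ≠ 0 := fun l hl => by
    rw [hc'h]
    exact hasse_eval_ne_zero htr hQL hQ0 (by rw [hQd]; exact hl)
  have hc'nn : ∀ l, 0 ≤ V (c' l) := fun l => by
    rw [hc']
    exact av_taylor_nonneg V hQnn hVw l
  have hvc0 : 0 ≤ v (Q.eval S.w) := by
    rw [← hc'0]
    exact hVof (hc'nn 0) (hc'n 0 (Nat.zero_le _))
  have hTd : (taylor S.w Q).natDegree ≤ r := by
    rw [natDegree_taylor, hQd]
    exact hle
  have hTdisc : disc r (taylor S.w Q) = disc r Q := disc_taylor (by rw [hQd]; exact hle) _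
  -- the value of the polynomial
  obtain ⟨G, hG⟩ : ∃ G : ℤ, G = v (MvPolynomial.aeval x p) := ⟨_, rfl⟩
  have hp0' : MvPolynomial.aeval x p ≠ 0 := fun h0 => hp0 (hxi.eq_zero_of_aeval_eq_zero _ h0)
  have hG0 : 0 ≤ G := by
    rw [hG]
    exact iv_aeval_nonneg hv hvx' p hp0'
  have hδ0 : 0 ≤ v (disc r Q) := by
    refine hVof (val_disc_nonneg V (by omega) Q fun k _ => hQnn k) hQdisc
  have hδG : v (disc r Q) ≤ G := by
    rw [hG, hQ]
    refine le_trans (hp1' j hj0 v hv hvx' (by rw [← hQ]; exact hδ0)) ?_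
    exact le_of_dvd hxi hv hvx' hp0 (hd1 j hjr)
  obtain ⟨A, hA⟩ : ∃ A : ℤ, A = o (wd (sn (fun i => dd (x i)) (dd S.w))) + 1 := ⟨_, rfl⟩
  have hoJ : 0 ≤ o (wd (sn (fun i => dd (x i)) (dd S.w))) := by
    rw [sn_dd]
    refine h.reg _ ?_ (by rw [← sn_dd]; exact hJ')
    intro i
    refine Fin.lastCases ?_ (fun i => ?_) i
    · intro _
      simpa [sn] using hvw
    · intro _
      simpa [sn] using hvx i
  rw [← hA]
  have hA0 : 0 ≤ A := by rw [hA]; linarith
  have hstep : ∀ l < R.natDegree, (μ : ℤ) * v (c' l) + G ≤ μ * v (c' (l + 1)) + μ * A := by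
    intro l hl
    have hb : ((l : ℕ) + 1 : K) * c' (l + 1) ≠ 0 := mul_ne_zero (Nat.cast_add_one_ne_zero l) (hc'n _ (by omega))
    have hab : wd (sn (fun i => dd (x i)) (dd (c' l))) = (((l : ℕ) + 1 : K) * c' (l + 1)) • wd (sn (fun i => dd (x i)) (dd S.w)) := by
      rw [hc'h l, hc'h (l + 1)]
      exact tr_hasse hz htr hxL hJ' hQL l
    have hvb : v (((l : ℕ) + 1 : K) * c' (l + 1)) = v (c' (l + 1)) := by
      have h1 : v (((l : ℕ) + 1 : K)) = 0 := by
        have := iv_natCast hv (Nat.succ_ne_zero l)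
        rwa [Nat.cast_succ] at this
      rw [hv.mul (left_ne_zero_of_mul hb) (right_ne_zero_of_mul hb), h1, zero_add]
    obtain ⟨h1, h2⟩ := v_le_two hJ' (hc'n l (by omega)) hb hab h hvx hp0
    rw [hvb, ← hA] at h1 h2
    rw [← hG] at h1
    have h3 : (p.totalDegree : ℤ) * (A + v (c' (l + 1)) - v (c' l)) ≤ μ * (A + v (c' (l + 1)) - v (c' l)) :=
      mul_le_mul_of_nonneg_right (by exact_mod_cast hμp) h2
    nlinarith
  have hchain : ∀ l ≤ R.natDegree, (μ : ℤ) * v (c' 0) - l * (μ * A - G) ≤ μ * v (c' l) := by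
    intro l
    induction l with
    | zero => intro _; simp
    | succ l ih =>
      intro hl
      have h1 := ih (by omega)
      have h2 := hstep l (by omega)
      push_cast
      nlinarith
  have hI : (2 * (r : ℤ) - 2) * (μ * v (c' 0)) - r * (r - 1) * (μ * A - G) ≤ μ * v (disc r Q) := by
    have h1 := iv_le_disc (iv_smul hv μ) (r := r) (by omega) (P := taylor S.w Q) ((μ : ℤ) * v (c' 0)) (μ * A - G) ?_ ?_
    · rw [hTdisc] at h1
      exact h1
    · intro l _ hl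
      have h2 : l ≤ R.natDegree := by
        rw [← hQd, ← natDegree_taylor Q S.w]
        exact le_natDegree_of_ne_zero hl
      rw [← hc']
      exact hchain l h2
    · rw [hTdisc]
      exact hQdisc
  have hRd2 : 1 ≤ R.natDegree := by
    by_contra h0
    have h1 : R.natDegree = 0 := by omega
    apply hne
    rw [eq_C_of_natDegree_eq_zero h1]
    have h2 : disc r (C (R.coeff 0)) = 0 := by
      rw [disc, derivative_C, resultant_zero_left, zero_pow (by omega), zero_mul]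
    exact h2
  have hcA : v (Q.eval S.w) ≤ G + A := by
    rw [← hc'0]
    have h1 := min_le_val_disc V (r := r) (by omega) (taylor S.w Q) fun k _ => by rw [← hc']; exact hc'nn k
    rw [hTdisc, ← hc', ← hc', hVne hQdisc, hVne (hc'n 0 (Nat.zero_le _)), hVne (hc'n 1 hRd2), ← WithTop.coe_min,
      WithTop.coe_le_coe] at h1
    rcases min_le_iff.1 h1 with h2 | h2
    · linarith
    · have h3 := hstep 0 (by omega)
      have h4 : (μ : ℤ) * v (c' 0) ≤ μ * (G + A) := by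
        have h5 : v (c' (0 + 1)) ≤ G := le_trans h2 hδG
        have h6 : (μ : ℤ) * v (c' (0 + 1)) ≤ μ * G := mul_le_mul_of_nonneg_left h5 (by positivity)
        nlinarith
      exact le_of_mul_le_mul_left h4 (by exact_mod_cast hμ1)
  -- the equation of the boundary
  have hQc : C (S.X c)⁻¹ * S.P ≠ 0 := mul_ne_zero (by simpa using hc) hF
  obtain ⟨i, hi0, himin⟩ := exists_min_coeff v hQc
  have hid : i ≤ S.P.natDegree := by
    have := le_natDegree_of_ne_zero hi0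
    rwa [natDegree_C_mul (inv_ne_zero hc)] at this
  obtain ⟨e, he⟩ : ∃ e : K, e = (C (S.X c)⁻¹ * S.P).coeff i := ⟨_, rfl⟩
  rw [← he] at hi0 himin
  have hPi : S.P.coeff i ≠ 0 := by
    intro h0
    apply hi0
    rw [he, coeff_C_mul, h0, mul_zero]
  have he' : e = (S.X c)⁻¹ * S.P.coeff i := by rw [he, coeff_C_mul]
  have hve0 : 0 ≤ v e := by
    obtain ⟨b, hb⟩ := hPc i hPi
    rw [he', hv.mul (inv_ne_zero hc) hPi, iv_inv hv hc, hb]
    rw [hb] at hPi
    have := hch.le b hPi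
    linarith
  have hveG : v e ≤ G := by
    rw [hG, he']
    refine le_trans (hp2' i hPi v hv hvx' (by rw [← he']; exact hve0)) ?_
    exact le_of_dvd hxi hv hvx' hp0 (hd2 i hid)
  obtain ⟨φ, hφ⟩ : ∃ φ : K[X], φ = C e⁻¹ * (C (S.X c)⁻¹ * S.P) := ⟨_, rfl⟩
  have hφnn : ∀ l, 0 ≤ V (φ.coeff l) := by
    intro l
    refine hVnn fun hl => ?_
    rw [hφ, coeff_C_mul] at hl ⊢
    have h1 := right_ne_zero_of_mul hl
    rw [hv.mul (inv_ne_zero hi0) h1, iv_inv hv hi0]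
    have := himin l h1
    linarith
  have hφi : V (φ.coeff i) = 0 := by
    rw [hφ, coeff_C_mul, ← he, inv_mul_cancel₀ hi0, AddValuation.map_one]
  have hφw : φ.eval S.w = e⁻¹ * ((S.X c)⁻¹ * S.P.eval S.w) := by
    rw [hφ, eval_mul, eval_C, eval_mul, eval_C]
  have hφw0 : φ.eval S.w ≠ 0 := by
    rw [hφw]
    exact mul_ne_zero (inv_ne_zero hi0) (mul_ne_zero (inv_ne_zero hc) hPw)
  have hvφ : v (S.P.eval S.w) - v (S.X c) = v e + v (φ.eval S.w) := by
    rw [hφw, hv.mul (inv_ne_zero hi0) (mul_ne_zero (inv_ne_zero hc) hPw), hv.mul (inv_ne_zero hc) hPw, iv_inv hv hi0,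
      iv_inv hv hc]
    ring
  have hvφ0 : 0 ≤ v (φ.eval S.w) := hVof (av_eval_nonneg V hφnn hVw) hφw0
  -- `φ` divides a power of `Q`
  have hdφ : φ ∣ Q ^ M := by
    have h1 : S.P ∣ Q ^ M := by
      rw [hQ, mul_pow]
      exact hpow.mul_left _
    have hu : IsUnit (C e⁻¹ * C (S.X c)⁻¹ : K[X]) :=
      (isUnit_C.2 (isUnit_iff_ne_zero.2 (inv_ne_zero hi0))).mul (isUnit_C.2 (isUnit_iff_ne_zero.2 (inv_ne_zero hc)))
    rw [hφ, ← mul_assoc]
    exact (hu.mul_left_dvd).2 h1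
  have hφM : v (φ.eval S.w) ≤ M * v (Q.eval S.w) := by
    obtain ⟨ψ, hψ⟩ := hdφ
    have h1 : ∀ l, 0 ≤ V (ψ.coeff l) := by
      refine Pool.Agent.H8.LG.gauss V hφnn ⟨i, hφi⟩ ?_
      rw [← hψ]
      exact av_pow_nonneg V hQnn M
    have h2 : Q.eval S.w ^ M = φ.eval S.w * ψ.eval S.w := by
      rw [← eval_pow, hψ, eval_mul]
    have h3 : ψ.eval S.w ≠ 0 := right_ne_zero_of_mul (by rw [← h2]; exact pow_ne_zero _ hQw0)
    have h4 := iv_pow hv hQw0 M
    rw [h2, hv.mul hφw0 h3] at h4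
    have h5 := hVof (av_eval_nonneg V h1 hVw) h3
    linarith
  have hnum := num (r := r) (μ := μ) (M := M) (G := G) (A := A) (c₀ := v (Q.eval S.w)) (δ := v (disc r Q))
    (φ := v (S.P.eval S.w) - v (S.X c)) (by exact_mod_cast hr) (by exact_mod_cast hμ1) (by exact_mod_cast hM) hG0 hA0
    (by rw [← hc'0]; exact hI) hδ0 hcA (by rw [hvφ]; linarith)
  have hcast1 : ((2 * r - 2 : ℕ) : ℤ) = 2 * r - 2 := by
    rw [Nat.cast_sub (by omega)]
    push_cast
    ring
  have hcast2 : ((r * (r - 1) : ℕ) : ℤ) = r * (r - 1) := by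
    rw [Nat.cast_mul, Nat.cast_sub (by omega)]
    push_cast
    ring
  rw [hcast1, hcast2]
  refine ⟨hnum.1, hnum.2, by rw [hvφ]; linarith, ?_⟩
  intro heq
  have h1 : v (φ.eval S.w) = 0 := by
    have : v (S.P.eval S.w) - v (S.X c) = 0 := by linarith
    rw [hvφ] at this
    linarith
  have h2 : v (Q.eval S.w) = 0 := by
    have hdQ : Q ∣ φ := by
      have h3 : Q ∣ S.P := by
        have hu : IsUnit (C (R.coeff j)⁻¹ : K[X]) := isUnit_C.2 (isUnit_iff_ne_zero.2 (inv_ne_zero hj0))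
        rw [hQ]
        exact (hu.mul_left_dvd).2 hdvd
      rw [hφ]
      exact (h3.mul_left _).mul_left _
    obtain ⟨ψ, hψ⟩ := hdQ
    have h3 : ∀ l, 0 ≤ V ((Q * ψ).coeff l) := by
      rw [← hψ]
      exact hφnn
    have h4 := Pool.Agent.H8.LG.gauss_unit V hQnn ⟨j, hQj⟩ h3 hVw (by rw [← hψ, hVne hφw0, h1]; rfl)
    rw [hVne hQw0] at h4
    exact_mod_cast h4
  rw [h2]
  exact ⟨by linarith, hoJ⟩

end Pool.Agent.H45.LG
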