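import Pool.Agent.H45.LG.Case2

/-!
# LG: case II, all charts
-/

open Polynomial
open Pool.Agent.H23 (RatForm regularForms PrimeDivisorOver fc dualDer)
open Pool.Agent.LG

set_option linter.unusedSectionVars false

noncomputable section

namespace Pool.Agent.H45.LG

variable {K : Type} [Field K] [Algebra ℂ K] {k n D : ℕ} {ι : Type}

/-- all charts, `w` finite -/
theorem fin_bound {z : Fin (k + 1) → K} (hz : IsTranscendenceBasis ℂ z) [Fintype ι] (S : Dat K ι n D) (hF : S.P ≠ 0)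
    (htr : Transcendental (IntermediateField.adjoin ℂ (Set.range S.X)) S.w) {r M : ℕ} {R : K[X]} (hr : 3 ≤ r) (hM : 1 ≤ M)
    (hmem : ∀ i, R.coeff i ∈ IntermediateField.adjoin ℂ (Set.range S.X)) (hne : disc r R ≠ 0) (hle : R.natDegree ≤ r)
    (hdvd : R ∣ S.P) (hpow : S.P ∣ R ^ M) (I : Fin k → Fin n) (hI : wd (sn (fun i => S.δ (I i)) (dd S.w)) ≠ 0) :
    ∃ N : ℤ, 1 ≤ N ∧ ∀ (v : K → ℤ) (o : RatForm K (k + 1) → ℤ), FV (k + 1) v o → ∀ c, CH S v c → 0 ≤ v S.w →
      0 ≤ v (disc r R / R.eval S.w ^ (2 * r - 2)) + (r * (r - 1) : ℕ) * (o (wd (sn (fun i => S.δ (I i)) (dd S.w))) + 1) ∧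
      v (S.P.eval S.w) - v (S.X c) ≤
        N * (v (disc r R / R.eval S.w ^ (2 * r - 2)) + (r * (r - 1) : ℕ) * (o (wd (sn (fun i => S.δ (I i)) (dd S.w))) + 1)) ∧
      (v (S.P.eval S.w) = v (S.X c) →
        0 ≤ v (disc r R / R.eval S.w ^ (2 * r - 2)) + (r * (r - 1) : ℕ) * o (wd (sn (fun i => S.δ (I i)) (dd S.w)))) := by
  classical
  have key : ∀ (c : ι) (J : Fin k → ι), ∃ N : ℤ, 1 ≤ N ∧ (S.X c ≠ 0 →
      wd (sn (fun i => dd (S.X (J i) / S.X c)) (dd S.w)) ≠ 0 → ∀ (v : K → ℤ) (o : RatForm K (k + 1) → ℤ),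
      FV (k + 1) v o → CH S v c → 0 ≤ v S.w →
      0 ≤ v (disc r R / R.eval S.w ^ (2 * r - 2)) + (r * (r - 1) : ℕ) * (o (wd (sn (fun i => dd (S.X (J i) / S.X c)) (dd S.w))) + 1) ∧
      v (S.P.eval S.w) - v (S.X c) ≤
        N * (v (disc r R / R.eval S.w ^ (2 * r - 2)) + (r * (r - 1) : ℕ) * (o (wd (sn (fun i => dd (S.X (J i) / S.X c)) (dd S.w))) + 1)) ∧
      0 ≤ v (S.P.eval S.w) - v (S.X c) ∧
      (v (S.P.eval S.w) = v (S.X c) → 0 ≤ v (disc r R / R.eval S.w ^ (2 * r - 2)) ∧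
        0 ≤ o (wd (sn (fun i => dd (S.X (J i) / S.X c)) (dd S.w))))) := by
    intro c J
    by_cases hc : S.X c = 0
    · exact ⟨1, le_rfl, fun h => absurd hc h⟩
    by_cases hJ : wd (sn (fun i => dd (S.X (J i) / S.X c)) (dd S.w)) = 0
    · exact ⟨1, le_rfl, fun _ h => absurd hJ h⟩
    obtain ⟨N, hN, h⟩ := chart_bound hz S hF htr hr hM hmem hne hle hdvd hpow hc hJ
    exact ⟨N, hN, fun _ _ => h⟩
  choose N0 hN0 key using key
  refine ⟨1 + ∑ c, ∑ J, N0 c J, ?_, ?_⟩
  · have : 0 ≤ ∑ c, ∑ J, N0 c J := Finset.sum_nonneg fun c _ => Finset.sum_nonneg fun J _ => by linarith [hN0 c J]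
    linarith
  intro v o h c hch hvw
  have hv := h.toIV
  have hc := hch.ne
  obtain ⟨Mc, hMc, hδ⟩ := hch.mat
  obtain ⟨J0, hJ0, hle0⟩ := exists_term h (β := ι) (η := sn (fun i => S.δ (I i)) (dd S.w))
    (M := sn (fun i => Mc (I i)) (fun b => if b = c then 1 else 0))
    (ζ := sn (fun _ b => dd (S.X b / S.X c)) (fun _ => dd S.w)) (by
      intro i
      refine Fin.lastCases ?_ (fun i => ?_) i
      · simp only [sn, Fin.snoc_last, ite_smul, one_smul, zero_smul]
        rw [Finset.sum_ite_eq' Finset.univ c]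
        simp
      · simp only [sn, Fin.snoc_castSucc]
        exact hδ (I i))
    (by
      intro i
      refine Fin.lastCases ?_ (fun i => ?_) i
      · intro b
        simp only [sn, Fin.snoc_last]
        split_ifs
        · intro _
          rw [iv_one hv]
        · intro h0
          exact absurd rfl h0
      · intro b
        simp only [sn, Fin.snoc_castSucc]
        exact hMc _ _) hI
  have hJe : (fun i => (sn (fun _ b => dd (S.X b / S.X c)) (fun _ => dd S.w) : Fin (k + 1) → ι → Ω[K⁄ℂ]) i (J0 i)) =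
      sn (fun i => dd (S.X (J0 (Fin.castSucc i)) / S.X c)) (dd S.w) := by
    funext i
    refine Fin.lastCases ?_ (fun i => ?_) i
    · simp [sn]
    · simp [sn]
  rw [hJe] at hJ0 hle0
  obtain ⟨h1, h2, h3, h4⟩ := key c (fun i => J0 (Fin.castSucc i)) hc hJ0 v o h hch hvw
  obtain ⟨T, hT⟩ : ∃ T : ℤ, T = v (disc r R / R.eval S.w ^ (2 * r - 2)) + (r * (r - 1) : ℕ) *
    (o (wd (sn (fun i => dd (S.X (J0 (Fin.castSucc i)) / S.X c)) (dd S.w))) + 1) := ⟨_, rfl⟩
  rw [← hT] at h1 h2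
  have hTle : T ≤ v (disc r R / R.eval S.w ^ (2 * r - 2)) + (r * (r - 1) : ℕ) * (o (wd (sn (fun i => S.δ (I i)) (dd S.w))) + 1) := by
    rw [hT]
    have : ((r * (r - 1) : ℕ) : ℤ) * (o (wd (sn (fun i => dd (S.X (J0 (Fin.castSucc i)) / S.X c)) (dd S.w))) + 1) ≤
        (r * (r - 1) : ℕ) * (o (wd (sn (fun i => S.δ (I i)) (dd S.w))) + 1) :=
      mul_le_mul_of_nonneg_left (by linarith) (by positivity)
    linarith
  refine ⟨h1.trans hTle, ?_, ?_⟩
  · have hN1 : N0 c (fun i => J0 (Fin.castSucc i)) ≤ 1 + ∑ c, ∑ J, N0 c J := by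
      have h5 : N0 c (fun i => J0 (Fin.castSucc i)) ≤ ∑ J, N0 c J :=
        Finset.single_le_sum (f := fun J => N0 c J) (fun J _ => by linarith [hN0 c J]) (Finset.mem_univ _)
      have h6 : ∑ J, N0 c J ≤ ∑ c, ∑ J, N0 c J :=
        Finset.single_le_sum (f := fun c => ∑ J, N0 c J)
          (fun c _ => Finset.sum_nonneg fun J _ => by linarith [hN0 c J]) (Finset.mem_univ _)
      linarith
    have h7 : N0 c (fun i => J0 (Fin.castSucc i)) * T ≤ (1 + ∑ c, ∑ J, N0 c J) * T := mul_le_mul_of_nonneg_right hN1 h1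
    have h8 : (1 + ∑ c, ∑ J, N0 c J) * T ≤ (1 + ∑ c, ∑ J, N0 c J) *
        (v (disc r R / R.eval S.w ^ (2 * r - 2)) + (r * (r - 1) : ℕ) * (o (wd (sn (fun i => S.δ (I i)) (dd S.w))) + 1)) :=
      mul_le_mul_of_nonneg_left hTle (by linarith [hN0 c (fun i => J0 (Fin.castSucc i))])
    linarith
  · intro heq
    obtain ⟨h5, h6⟩ := h4 heq
    have h7 : 0 ≤ ((r * (r - 1) : ℕ) : ℤ) * o (wd (sn (fun i => S.δ (I i)) (dd S.w))) :=
      mul_nonneg (by positivity) (by linarith)
    linarith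

/-! ### Reversal -/

theorem natDegree_P_le (S : Dat K ι n D) : S.P.natDegree ≤ D := by
  rw [Dat.P]
  refine natDegree_sum_le_of_forall_le _ _ fun i _ => ?_
  refine (natDegree_C_mul_X_pow_le _ _).trans ?_
  have := i.2
  omega

theorem coeff_P (S : Dat K ι n D) (i : ℕ) : S.P.coeff i = if h : i < D + 1 then S.X (S.cf ⟨i, h⟩) else 0 := by
  rw [Dat.P, finsetSum_coeff]
  simp only [coeff_C_mul_X_pow]
  split_ifs with h
  · rw [Finset.sum_eq_single (⟨i, h⟩ : Fin (D + 1))]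
    · simp
    · intro b _ hb
      rw [if_neg]
      intro h0
      exact hb (Fin.ext h0.symm)
    · simp
  · refine Finset.sum_eq_zero fun b _ => ?_
    rw [if_neg]
    have := b.2
    omega

theorem P_mem (S : Dat K ι n D) (i : ℕ) : S.P.coeff i ∈ IntermediateField.adjoin ℂ (Set.range S.X) := by
  rw [coeff_P]
  split_ifs
  · exact IntermediateField.subset_adjoin _ _ ⟨_, rfl⟩
  · exact zero_mem _

theorem P_eval (S : Dat K ι n D) : S.P.eval S.w = S.F := by
  rw [Dat.P, Dat.F, eval_finsetSum]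
  simp

theorem rev_P (S : Dat K ι n D) : S.rev.P = reflect D S.P := by
  ext i
  rw [coeff_reflect, coeff_P, coeff_P]
  by_cases hi : i ≤ D
  · rw [revAt_le hi, dif_pos (by omega), dif_pos (by omega)]
    simp only [Dat.rev]
    congr 2
    ext
    simp [Fin.val_rev]
  · rw [revAt_eq_self_of_lt (by omega), dif_neg (by omega), dif_neg (by omega)]

theorem eval_reflect {P : K[X]} {m : ℕ} (hP : P.natDegree ≤ m) {w : K} (hw : w ≠ 0) :
    (reflect m P).eval w⁻¹ * w ^ m = P.eval w := by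
  let _ := invertibleOfNonzero hw
  have h := eval₂_reflect_mul_pow (RingHom.id K) w m P hP
  rw [invOf_eq_inv, eval₂_id, eval₂_id] at h
  exact h

theorem wd_smul_last {x : Fin k → Ω[K⁄ℂ]} (c : K) (y : Ω[K⁄ℂ]) : wd (sn x (c • y)) = c • wd (sn x y) := by
  have h1 : ∀ y' : Ω[K⁄ℂ], sn x y' = Function.update (sn x y) (Fin.last k) y' := by
    intro y'
    funext i
    refine Fin.lastCases ?_ (fun j => ?_) i
    · simp [sn]
    · rw [Function.update_of_ne (Fin.castSucc_lt_last j).ne]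
      simp [sn]
  rw [h1 (c • y), wd, AlternatingMap.map_update_smul, ← h1 y]
  rfl

theorem dd_inv {w : K} (hw : w ≠ 0) : dd w⁻¹ = (-(w ^ 2)⁻¹ : K) • dd w := by
  have h := (KaehlerDifferential.D ℂ K).leibniz_inv w
  rw [inv_pow] at h
  exact h

theorem natDegree_reflect_le' {P : K[X]} {m : ℕ} (hP : P.natDegree ≤ m) : (reflect m P).natDegree ≤ m := by
  refine natDegree_reflect_le.trans ?_
  rw [max_eq_left hP]

theorem reflect_pow {P : K[X]} {r : ℕ} (hP : P.natDegree ≤ r) (m : ℕ) : reflect (r * m) (P ^ m) = reflect r P ^ m := by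
  induction m with
  | zero => simp
  | succ m ih =>
    rw [pow_succ, pow_succ, ← ih, Nat.mul_succ, reflect_mul _ _ (natDegree_pow_le.trans ?_) hP]
    rw [mul_comm]
    exact Nat.mul_le_mul_right _ hP

/-- **Case II**, `0` and `∞` may be roots: `r` is the number of zeros in the projective line. -/
theorem caseII {z : Fin (k + 1) → K} (hz : IsTranscendenceBasis ℂ z) [Fintype ι] (S : Dat K ι n D) (hF : S.F ≠ 0)
    (h3 : 3 ≤ (S.P.rootSet S.P.SplittingField).ncard + if S.P.natDegree < D then 1 else 0)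
    (htr : Transcendental (IntermediateField.adjoin ℂ (Set.range S.X)) S.w) (I : Fin k → Fin n)
    (hI : wd (sn (fun i => S.δ (I i)) (dd S.w)) ≠ 0) :
    ∃ (f₀ : K) (m₀ : ℕ) (N : ℤ), f₀ ≠ 0 ∧ 1 ≤ m₀ ∧ 1 ≤ N ∧ Bd S f₀ m₀ (wd (sn (fun i => S.δ (I i)) (dd S.w))) N := by
  classical
  have : CharZero K := charZero_of_injective_algebraMap (algebraMap ℂ K).injective
  have hPF := P_eval S
  have hP0 : S.P ≠ 0 := by
    intro h
    apply hF
    rw [← hPF, h, eval_zero]
  have hw : S.w ≠ 0 := by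
    intro h
    rw [h] at htr
    exact htr (isAlgebraic_zero)
  have hPD := natDegree_P_le S
  obtain ⟨R, hmem, hsq, -, hdvd, hpow, -, hcard⟩ := Pool.Agent.H8.LG.exists_radical S.P hP0 (P_mem S)
  rw [← hcard] at h3
  have hR0 : R ≠ 0 := hsq.ne_zero
  obtain ⟨r, hr⟩ : ∃ r : ℕ, r = R.natDegree + if S.P.natDegree < D then 1 else 0 := ⟨_, rfl⟩
  have hr3 : 3 ≤ r := by rw [hr]; exact h3
  have hRP : R.natDegree ≤ S.P.natDegree := natDegree_le_of_dvd hdvd hP0
  have hRr : R.natDegree ≤ r := by rw [hr]; omega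
  have hRr2 : R.natDegree = r ∨ R.natDegree + 1 = r := by
    rw [hr]
    split_ifs <;> simp
  have hD2 : 2 ≤ S.P.natDegree := by
    by_contra h
    have : R.natDegree ≤ 1 := by omega
    split_ifs at hr <;> omega
  have hM : 1 ≤ D := by omega
  have hpow' : S.P ∣ R ^ D := hpow.trans (pow_dvd_pow _ hPD)
  have hne : disc r R ≠ 0 := disc_ne_zero hsq hRr2
  have hRw : R.eval S.w ≠ 0 := eval_ne_zero htr hmem hR0
  obtain ⟨N1, hN1, hb1⟩ := fin_bound hz S hP0 htr hr3 hM hmem hne hRr hdvd hpow' I hI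
  -- the reversed data
  have hrevP := rev_P S
  obtain ⟨R', hR'⟩ : ∃ R' : K[X], R' = reflect r R := ⟨_, rfl⟩
  have hne' : disc r R' ≠ 0 := by rw [hR', disc_reflect]; exact hne
  have hmem' : ∀ i, R'.coeff i ∈ IntermediateField.adjoin ℂ (Set.range S.rev.X) := fun i => by
    rw [hR', coeff_reflect]
    exact hmem _
  have hle' : R'.natDegree ≤ r := by rw [hR']; exact natDegree_reflect_le' hRr
  have hrD : r ≤ D := by
    rw [hr]
    split_ifs <;> omega
  have hdvd' : R' ∣ S.rev.P := by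
    obtain ⟨T, hT⟩ := hdvd
    have hT0 : T ≠ 0 := by
      rintro rfl
      exact hP0 (by rw [hT, mul_zero])
    have hTd : R.natDegree + T.natDegree = S.P.natDegree := by rw [hT, natDegree_mul hR0 hT0]
    have hTD : T.natDegree ≤ D - r := by
      rw [hr]
      split_ifs <;> omega
    refine ⟨reflect (D - r) T, ?_⟩
    rw [hrevP, hR', ← reflect_mul _ _ hRr hTD, ← hT]
    congr 1
    omega
  have hpow2 : S.rev.P ∣ R' ^ D := by
    obtain ⟨T, hT⟩ := hpow'
    have hT0 : T ≠ 0 := by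
      rintro rfl
      exact pow_ne_zero D hR0 (by rw [hT, mul_zero])
    have hTd : S.P.natDegree + T.natDegree = D * R.natDegree := by
      rw [← natDegree_mul hP0 hT0, ← hT, natDegree_pow]
    have hrD' : D ≤ r * D := Nat.le_mul_of_pos_left _ (by omega)
    have hTD : T.natDegree ≤ r * D - D := by
      rcases hRr2 with h | h
      · have h1 : S.P.natDegree = D := by
          by_contra h0
          have h2 : S.P.natDegree < D := by omega
          rw [if_pos h2] at hr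
          omega
        rw [h, mul_comm] at hTd
        omega
      · have h2 : D * R.natDegree + D = r * D := by
          rw [← h]
          ring
        have h3 : D ≤ D * R.natDegree := Nat.le_mul_of_pos_right _ (by omega)
        omega
    refine ⟨reflect (r * D - D) T, ?_⟩
    rw [hrevP, hR', ← reflect_pow hRr, hT, ← reflect_mul _ _ hPD hTD]
    congr 1
    omega
  have htr' : Transcendental (IntermediateField.adjoin ℂ (Set.range S.rev.X)) S.rev.w := by
    intro h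
    apply htr
    have h1 := IsAlgebraic.inv h
    have h2 : S.rev.w⁻¹ = S.w := by
      simp [Dat.rev]
    rw [h2] at h1
    exact h1
  have hωrev : wd (sn (fun i => S.rev.δ (I i)) (dd S.rev.w)) = (-(S.w ^ 2)⁻¹ : K) • wd (sn (fun i => S.δ (I i)) (dd S.w)) := by
    have h1 : dd S.rev.w = (-(S.w ^ 2)⁻¹ : K) • dd S.w := dd_inv hw
    rw [h1, wd_smul_last]
    rfl
  have hcoef : (-(S.w ^ 2)⁻¹ : K) ≠ 0 := neg_ne_zero.2 (inv_ne_zero (pow_ne_zero _ hw))
  have hI' : wd (sn (fun i => S.rev.δ (I i)) (dd S.rev.w)) ≠ 0 := by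
    rw [hωrev]
    exact smul_ne_zero hcoef hI
  have hrevP0 : S.rev.P ≠ 0 := by
    rw [hrevP, Ne, reflect_eq_zero_iff]
    exact hP0
  obtain ⟨N2, hN2, hb2⟩ := fin_bound hz S.rev hrevP0 htr' hr3 hM hmem' hne' hle' hdvd' hpow2 I hI'
  obtain ⟨m₀, hm₀⟩ : ∃ m₀ : ℕ, m₀ = r * (r - 1) := ⟨_, rfl⟩
  have hm1 : 1 ≤ m₀ := by
    rw [hm₀]
    exact Nat.mul_pos (by omega) (by omega)
  have hf0 : disc r R / R.eval S.w ^ (2 * r - 2) ≠ 0 := div_ne_zero hne (pow_ne_zero _ hRw)
  have hFrev : ∀ v : K → ℤ, IV K v → v (S.rev.P.eval S.rev.w) = v S.F - D * v S.w := by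
    intro v hv
    have h1 := eval_reflect hPD hw
    rw [← hrevP] at h1
    have h2 : S.rev.P.eval S.w⁻¹ ≠ 0 := by
      intro h0
      rw [h0, zero_mul, hPF] at h1
      exact hF h1.symm
    have h3 := hv.mul h2 (pow_ne_zero D hw)
    rw [h1, hPF, iv_pow hv hw] at h3
    change v (S.rev.P.eval S.w⁻¹) = _
    linarith
  have hTrev : ∀ (v : K → ℤ) (o : RatForm K (k + 1) → ℤ), FV (k + 1) v o →
      v (disc r R / R'.eval S.rev.w ^ (2 * r - 2)) + (m₀ : ℕ) * (o (wd (sn (fun i => S.rev.δ (I i)) (dd S.rev.w))) + 1) =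
      v (disc r R / R.eval S.w ^ (2 * r - 2)) + (m₀ : ℕ) * (o (wd (sn (fun i => S.δ (I i)) (dd S.w))) + 1) := by
    intro v o h
    have hv := h.toIV
    have h1 := eval_reflect hRr hw
    rw [← hR'] at h1
    have h2 : R'.eval S.w⁻¹ ≠ 0 := by
      intro h0
      rw [h0, zero_mul] at h1
      exact hRw h1.symm
    have h3 := hv.mul h2 (pow_ne_zero r hw)
    rw [h1, iv_pow hv hw] at h3
    have h4 : v (-(S.w ^ 2)⁻¹ : K) = -2 * v S.w := by
      have h5 : (-(S.w ^ 2)⁻¹ : K) = algebraMap ℂ K (-1) * (S.w ^ 2)⁻¹ := by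
        rw [map_neg, map_one, neg_one_mul]
      have h6 : algebraMap ℂ K (-1) ≠ 0 := by
        rw [map_neg, map_one]
        exact neg_ne_zero.2 one_ne_zero
      rw [h5, hv.mul h6 (inv_ne_zero (pow_ne_zero _ hw)), hv.const (-1) (by norm_num), iv_inv hv (pow_ne_zero _ hw),
        iv_pow hv hw]
      push_cast
      ring
    have h7 := h.smul hcoef hI
    rw [h4, ← hωrev] at h7
    have h8 : R'.eval S.rev.w ≠ 0 := h2
    rw [iv_div hv hne (pow_ne_zero _ h8), iv_div hv hne (pow_ne_zero _ hRw), iv_pow hv h8, iv_pow hv hRw, h7]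
    have h9 : v (R'.eval S.rev.w) = v (R.eval S.w) - r * v S.w := by
      change v (R'.eval S.w⁻¹) = _
      linarith
    have hcast1 : ((2 * r - 2 : ℕ) : ℤ) = 2 * r - 2 := by
      rw [Nat.cast_sub (by omega)]
      push_cast
      ring
    have hcast2 : (m₀ : ℤ) = r * (r - 1) := by
      rw [hm₀, Nat.cast_mul, Nat.cast_sub (by omega)]
      push_cast
      ring
    rw [h9, hcast1, hcast2]
    ring
  refine ⟨disc r R / R.eval S.w ^ (2 * r - 2), m₀, max N1 N2, hf0, hm1, le_trans hN1 (le_max_left _ _), ?_, ?_⟩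
  · intro v o h _ c hch
    have hv := h.toIV
    obtain ⟨T, hT⟩ : ∃ T : ℤ, T = v (disc r R / R.eval S.w ^ (2 * r - 2)) +
      (m₀ : ℕ) * (o (wd (sn (fun i => S.δ (I i)) (dd S.w))) + 1) := ⟨_, rfl⟩
    rw [← hT]
    rcases le_or_gt 0 (v S.w) with hvw | hvw
    · obtain ⟨h1, h2, -⟩ := hb1 v o h c hch hvw
      rw [← hm₀, ← hT] at h1 h2
      rw [hPF] at h2
      rw [min_eq_left hvw, mul_zero, sub_zero]
      exact h2.trans (mul_le_mul_of_nonneg_right (le_max_left _ _) h1)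
    · obtain ⟨h1, h2, -⟩ := hb2 v o h c ⟨hch.ne, hch.le, hch.mat⟩ (by
        change 0 ≤ v S.w⁻¹
        rw [iv_inv hv hw]
        linarith)
      rw [← hm₀, hR', disc_reflect, ← hR', hTrev v o h] at h1 h2
      rw [← hT] at h1 h2
      rw [hFrev v hv] at h2
      rw [min_eq_right hvw.le]
      refine le_trans (le_of_eq ?_) (h2.trans (mul_le_mul_of_nonneg_right (le_max_right _ _) h1))
      change _ = v S.F - D * v S.w - v (S.X c)
      ring
  · intro v o h _ c hch heq
    have hv := h.toIV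
    rcases le_or_gt 0 (v S.w) with hvw | hvw
    · obtain ⟨-, -, h3⟩ := hb1 v o h c hch hvw
      rw [min_eq_left hvw, mul_zero, add_zero] at heq
      rw [hPF, ← hm₀] at h3
      exact h3 heq
    · obtain ⟨-, -, h3⟩ := hb2 v o h c ⟨hch.ne, hch.le, hch.mat⟩ (by
        change 0 ≤ v S.w⁻¹
        rw [iv_inv hv hw]
        linarith)
      rw [min_eq_right hvw.le] at heq
      have h4 := h3 (by
        rw [hFrev v hv]
        change _ = v (S.X c)
        linarith)
      rw [← hm₀, hR', disc_reflect, ← hR'] at h4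
      have h5 := hTrev v o h
      linarith

end Pool.Agent.H45.LG
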