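import Pool.Agent.H45.LG.CaseII
import Pool.Agent.LG.Fv
import Pool.Agent.LG.C1
import Pool.Agent.LG.Ci
import Pool.Agent.LG.Cr

/-!
# LG: the algebraic core, `0` and `∞` may be roots
-/

open Polynomial
open Pool.Agent.H23 (RatForm regularForms PrimeDivisorOver fc dualDer)
open Pool.Agent.LG

noncomputable section

namespace Pool.Agent.H45.LG

variable {K : Type} [Field K] [Algebra ℂ K] {k n D : ℕ} {ι : Type}

theorem alg_of_insert {s : Set K} {w : K}
    (hw : IsAlgebraic (IntermediateField.adjoin ℂ s) w)
    (h : Algebra.IsAlgebraic (IntermediateField.adjoin ℂ (insert w s)) K) :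
    Algebra.IsAlgebraic (IntermediateField.adjoin ℂ s) K := by
  refine ⟨fun a => ?_⟩
  have ha := h.isAlgebraic a
  let L := IntermediateField.adjoin ℂ s
  let M : IntermediateField L K := algebraicClosure L K
  have hle : IntermediateField.adjoin ℂ (insert w s) ≤ M.restrictScalars ℂ := by
    rw [IntermediateField.adjoin_le_iff]
    intro x hx
    rcases Set.mem_insert_iff.1 hx with rfl | hx
    · exact mem_algebraicClosure_iff.2 hw
    · have : x ∈ L := IntermediateField.subset_adjoin _ _ hx
      exact M.algebraMap_mem ⟨x, this⟩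
  have h2 : IsAlgebraic (M.restrictScalars ℂ).toSubalgebra a :=
    IsAlgebraic.tower_top_of_subalgebra_le (A := (IntermediateField.adjoin ℂ (insert w s)).toSubalgebra) hle ha
  have h3 : IsAlgebraic M a := h2
  exact IsAlgebraic.restrictScalars L h3

theorem core' [Algebra.EssFiniteType ℂ K] {z : Fin (k + 1) → K} (hz : IsTranscendenceBasis ℂ z) [Fintype ι] (S : Dat K ι n D)
    (hD : 1 ≤ D) {B : PrimeDivisorOver K (k + 1) → Prop} (h : S.Good B)
    (h3 : Transcendental (IntermediateField.adjoin ℂ (Set.range S.X)) S.w →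
      3 ≤ (S.P.rootSet S.P.SplittingField).ncard + if S.P.natDegree < D then 1 else 0) :
    H17LG.IsLogGeneralType B := by
  by_cases htr : Transcendental (IntermediateField.adjoin ℂ (Set.range S.X)) S.w
  · obtain ⟨I, hI⟩ := exists_I2 hz S h.alg htr h.span
    obtain ⟨f₀, m₀, N, hf, hm, hN, hB⟩ := H45.LG.caseII hz S h.F_ne (h3 htr) htr I hI
    exact lgt_of_bd hz S hD h hf hm hI hN hB
  · have hw : IsAlgebraic (IntermediateField.adjoin ℂ (Set.range S.X)) S.w := by
      by_contra h0
      exact htr h0
    have halg : Algebra.IsAlgebraic (IntermediateField.adjoin ℂ (Set.range S.X)) K :=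
      alg_of_insert hw h.alg
    obtain ⟨I, hI⟩ := exists_I1 hz S halg h.span
    obtain ⟨N, hN, hB⟩ := caseI hz S h.F_ne h.w_ne I hI
    exact lgt_of_bd hz S hD h one_ne_zero le_rfl hI hN hB

end Pool.Agent.H45.LG
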