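import Mathlib

/-!
# The discriminant of a binary form and valuations

`disc r P` is, up to a nonzero constant, the discriminant of the polynomial `P` viewed as a binary form of degree `r`.
-/

open Polynomial

namespace Pool.Agent.H45.LG

section Resultant

variable {K : Type*} [Field K]

/-- The resultant with formal degrees is invariant under translations. -/
theorem resultant_taylor' {f g : K[X]} {m n : ℕ} (hf : f.natDegree ≤ m) (hg : g.natDegree ≤ n) (w : K) :
    resultant (taylor w f) (taylor w g) m n = resultant f g m n := by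
  have h2 := resultant_taylor f g w
  rw [natDegree_taylor, natDegree_taylor] at h2
  rcases hf.lt_or_eq with hf' | hf'
  · rcases hg.lt_or_eq with hg' | hg'
    · rw [resultant_eq_zero_of_lt_lt _ _ _ _ hf' hg', resultant_eq_zero_of_lt_lt _ _ _ _ (by simpa using hf')
        (by simpa using hg')]
    · subst hg'
      obtain ⟨k, rfl⟩ := Nat.exists_eq_add_of_le hf
      rw [resultant_add_left_deg _ _ _ _ _ le_rfl, resultant_add_left_deg _ _ _ _ _ (by simp), h2,
        coeff_taylor_natDegree]
      rfl
  · subst hf'
    obtain ⟨k, rfl⟩ := Nat.exists_eq_add_of_le hg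
    rw [resultant_add_right_deg _ _ _ _ _ le_rfl, resultant_add_right_deg _ _ _ _ _ (by simp), h2,
      coeff_taylor_natDegree]
    rfl

/-- the entries of the Sylvester matrix -/
theorem sylv_apply (f g : K[X]) (m n : ℕ) (i j : Fin (m + n)) :
    sylvester f g m n i j = if (j : ℕ) < m then (if (j : ℕ) ≤ i ∧ (i : ℕ) ≤ j + n then g.coeff (i - j) else 0)
      else (if (j : ℕ) - m ≤ i ∧ (i : ℕ) ≤ j - m + m then f.coeff (i - (j - m)) else 0) := by
  induction j using Fin.addCases with
  | left j => simp [sylvester]
  | right j => simp [sylvester]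

/-- The discriminant of `P`, as a binary form of degree `r`, up to a constant. -/
noncomputable def disc (r : ℕ) (P : K[X]) : K :=
  resultant (derivative P) (C (r : K) * P - X * derivative P) (r - 1) (r - 1)

theorem coeff_snd (r : ℕ) (P : K[X]) (k : ℕ) :
    (C (r : K) * P - X * derivative P).coeff k = ((r : K) - k) * P.coeff k := by
  rcases k with _ | k
  · simp
  · rw [coeff_sub, coeff_C_mul, coeff_X_mul, coeff_derivative]
    push_cast
    ring

theorem natDegree_snd {r : ℕ} {P : K[X]} (hP : P.natDegree ≤ r) :
    (C (r : K) * P - X * derivative P).natDegree ≤ r - 1 := by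
  rw [natDegree_le_iff_coeff_eq_zero]
  intro k hk
  rw [coeff_snd]
  rcases eq_or_ne k r with rfl | hkr
  · simp
  · rw [coeff_eq_zero_of_natDegree_lt (by omega), mul_zero]

theorem natDegree_fst {r : ℕ} {P : K[X]} (hP : P.natDegree ≤ r) : (derivative P).natDegree ≤ r - 1 :=
  (natDegree_derivative_le P).trans (by omega)

theorem disc_taylor {r : ℕ} {P : K[X]} (hP : P.natDegree ≤ r) (w : K) :
    disc r (taylor w P) = disc r P := by
  have h1 : derivative (taylor w P) = taylor w (derivative P) := by
    simp [taylor_apply, derivative_comp]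
  have h2 : C (r : K) * taylor w P - X * derivative (taylor w P)
      = taylor w (C (r : K) * P - X * derivative P) + taylor w (derivative P) * C w := by
    rw [h1, map_sub, taylor_mul, taylor_mul, taylor_C, taylor_X]
    ring
  rw [disc, h2, h1, resultant_add_mul_right _ _ _ _ _ (by simp) (by simpa using natDegree_fst hP),
    resultant_taylor' (natDegree_fst hP) (natDegree_snd hP), disc]

theorem disc_C_mul (r : ℕ) (P : K[X]) (h : K) : disc r (C h * P) = h ^ (2 * r - 2) * disc r P := by
  have h1 : derivative (C h * P) = C h * derivative P := by simp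
  have h2 : C (r : K) * (C h * P) - X * derivative (C h * P)
      = C h * (C (r : K) * P - X * derivative P) := by
    rw [h1]; ring
  rw [disc, h2, h1, resultant_C_mul_left, resultant_C_mul_right, disc, ← mul_assoc, ← pow_add]
  congr 2
  omega

/-- reversing the coefficients does not change the discriminant -/
theorem disc_reflect (r : ℕ) (P : K[X]) : disc r (reflect r P) = disc r P := by
  rcases r with _ | n
  · simp [disc, resultant]
  have hsub : sylvester (derivative (reflect (n + 1) P))
      (C ((n + 1 : ℕ) : K) * reflect (n + 1) P - X * derivative (reflect (n + 1) P)) n n =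
      (sylvester (derivative P) (C ((n + 1 : ℕ) : K) * P - X * derivative P) n n).submatrix Fin.revPerm Fin.revPerm := by
    ext i j
    have hi := i.2
    have hj := j.2
    rw [Matrix.submatrix_apply, sylv_apply, sylv_apply]
    simp only [Fin.revPerm_apply, Fin.val_rev, coeff_snd, coeff_derivative, coeff_reflect]
    by_cases h1 : (j : ℕ) < n
    · have h3 : ¬ (n + n - ((j : ℕ) + 1) < n) := by omega
      rw [if_pos h1, if_neg h3]
      by_cases h2 : (j : ℕ) ≤ i ∧ (i : ℕ) ≤ j + n
      · have h4 : n + n - ((j : ℕ) + 1) - n ≤ n + n - ((i : ℕ) + 1) ∧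
            n + n - ((i : ℕ) + 1) ≤ n + n - (j + 1) - n + n := by omega
        have h5 : (i : ℕ) - j ≤ n + 1 := by omega
        rw [if_pos h2, if_pos h4, revAt_le h5]
        have e1 : n + 1 - ((i : ℕ) - j) = n + n - (i + 1) - (n + n - (j + 1) - n) + 1 := by omega
        rw [e1]
        have e2 : ((n + n - ((i : ℕ) + 1) - (n + n - (j + 1) - n) : ℕ) : K) + 1 =
            ((n + 1 : ℕ) : K) - ((i - j : ℕ) : K) := by
          have : (n + n - ((i : ℕ) + 1) - (n + n - (j + 1) - n)) + 1 + (i - j) = n + 1 := by omega
          rw [← this]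
          push_cast
          ring
        rw [← e2]
        ring
      · have h4 : ¬ (n + n - ((j : ℕ) + 1) - n ≤ n + n - ((i : ℕ) + 1) ∧
            n + n - ((i : ℕ) + 1) ≤ n + n - (j + 1) - n + n) := by omega
        rw [if_neg h2, if_neg h4]
    · have h3 : n + n - ((j : ℕ) + 1) < n := by omega
      rw [if_neg h1, if_pos h3]
      by_cases h2 : (j : ℕ) - n ≤ i ∧ (i : ℕ) ≤ j - n + n
      · have h4 : n + n - ((j : ℕ) + 1) ≤ n + n - ((i : ℕ) + 1) ∧
            n + n - ((i : ℕ) + 1) ≤ n + n - (j + 1) + n := by omega
        have h5 : (i : ℕ) - (j - n) + 1 ≤ n + 1 := by omega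
        rw [if_pos h2, if_pos h4, revAt_le h5]
        have e1 : n + 1 - ((i : ℕ) - (j - n) + 1) = n + n - (i + 1) - (n + n - (j + 1)) := by omega
        rw [e1]
        have e2 : ((i - (j - n) : ℕ) : K) + 1 =
            ((n + 1 : ℕ) : K) - ((n + n - (i + 1) - (n + n - (j + 1)) : ℕ) : K) := by
          have : (n + n - ((i : ℕ) + 1) - (n + n - (j + 1))) + ((i - (j - n)) + 1) = n + 1 := by omega
          rw [← this]
          push_cast
          ring
        rw [e2]
        ring
      · have h4 : ¬ (n + n - ((j : ℕ) + 1) ≤ n + n - ((i : ℕ) + 1) ∧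
            n + n - ((i : ℕ) + 1) ≤ n + n - (j + 1) + n) := by omega
        rw [if_neg h2, if_neg h4]
  rw [disc, disc, resultant, resultant, Nat.add_sub_cancel, hsub, Matrix.det_submatrix_equiv_self]

/-- the discriminant of a squarefree form is not zero -/
theorem disc_ne_zero [CharZero K] {r : ℕ} {P : K[X]} (hP : Squarefree P)
    (h : P.natDegree = r ∨ P.natDegree + 1 = r) : disc r P ≠ 0 := by
  rcases Nat.lt_or_ge r 2 with hr | hr
  · have : r - 1 = 0 := by omega
    rw [disc, this, resultant]
    simp
  have hP0 : P ≠ 0 := hP.ne_zero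
  have hcop : IsCoprime P (derivative P) := PerfectField.separable_iff_squarefree.2 hP
  have hr0 : (r : K) ≠ 0 := by exact_mod_cast (show r ≠ 0 by omega)
  have hcop2 : IsCoprime (derivative P) (C (r : K) * P - X * derivative P) := by
    have h1 : IsCoprime (derivative P) (C (r : K) * P) := by
      have hu : IsUnit (C (r : K)) := isUnit_C.2 (isUnit_iff_ne_zero.2 hr0)
      exact (isCoprime_mul_unit_left_right hu _ _).2 hcop.symm
    have h2 := h1.add_mul_left_right (-X)
    have e : C (r : K) * P - X * derivative P = C (r : K) * P + derivative P * -X := by ring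
    rw [e]
    exact h2
  rw [disc]
  rcases h with h | h
  · have hf : (derivative P).natDegree = r - 1 := by
      rw [natDegree_derivative, h]
    obtain ⟨k, hk⟩ := Nat.exists_eq_add_of_le (natDegree_snd (r := r) (P := P) h.le)
    have h3 := resultant_add_right_deg (derivative P) (C (r : K) * P - X * derivative P) (r - 1)
      (C (r : K) * P - X * derivative P).natDegree k le_rfl
    rw [← hk] at h3
    rw [h3]
    refine mul_ne_zero (pow_ne_zero _ ?_) ?_
    · rw [← hf]
      intro h0
      have : derivative P = 0 := leadingCoeff_eq_zero.1 h0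
      have h4 := derivative_eq_zero.1 this
      omega
    · rw [← hf]
      exact resultant_ne_zero _ _ hcop2
  · have hg : (C (r : K) * P - X * derivative P).natDegree = r - 1 := by
      refine le_antisymm (natDegree_snd (by omega)) (le_natDegree_of_ne_zero ?_)
      rw [coeff_snd, show r - 1 = P.natDegree by omega]
      refine mul_ne_zero ?_ (by simpa using hP0)
      rw [← h]
      push_cast
      simp
    have hf : (derivative P).natDegree + 1 = r - 1 := by
      rw [natDegree_derivative]
      omega
    have h3 := resultant_add_left_deg (derivative P) (C (r : K) * P - X * derivative P)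
      (derivative P).natDegree (r - 1) 1 le_rfl
    rw [hf] at h3
    rw [h3]
    refine mul_ne_zero (mul_ne_zero (pow_ne_zero _ (by simp)) (pow_ne_zero _ ?_)) ?_
    · rw [← hg]
      intro h0
      have h4 : C (r : K) * P - X * derivative P = 0 := leadingCoeff_eq_zero.1 h0
      rw [h4, natDegree_zero] at hg
      omega
    · rw [← hg]
      exact resultant_ne_zero _ _ hcop2

end Resultant

section Valuation

variable {K : Type*} [Field K]

variable (v : AddValuation K (WithTop ℤ))

theorem val_natCast (n : ℕ) : 0 ≤ v (n : K) := by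
  induction n with
  | zero => simp
  | succ n ih =>
    rw [Nat.cast_succ]
    exact le_trans (le_min ih (by simp)) (v.map_add _ _)

/-- The value of a determinant whose entries are bounded by row and column weights. -/
theorem le_val_det {n : ℕ} (M : Matrix (Fin n) (Fin n) K) (ρ γ : Fin n → WithTop ℤ)
    (h : ∀ i j, ρ i + γ j ≤ v (M i j)) : ∑ i, ρ i + ∑ j, γ j ≤ v M.det := by
  rw [Matrix.det_apply]
  refine v.map_le_sum fun σ _ => ?_
  have h1 : v (Equiv.Perm.sign σ • ∏ i, M (σ i) i) = ∑ i, v (M (σ i) i) := by
    have h2 : v (∏ i, M (σ i) i) = ∑ i, v (M (σ i) i) := by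
      exact map_prod (AddValuation.toValuation v) _ _
    rcases Int.units_eq_one_or (Equiv.Perm.sign σ) with hs | hs
    · rw [hs, one_smul, h2]
    · rw [hs]
      simp only [Units.neg_smul, one_smul, AddValuation.map_neg, h2]
  rw [h1, ← Equiv.sum_comp σ ρ, ← Finset.sum_add_distrib]
  exact Finset.sum_le_sum fun i _ => h (σ i) i

theorem le_val_mul_natCast (n : ℕ) (x : K) {a : WithTop ℤ} (h : a ≤ v x) : a ≤ v ((n : K) * x) := by
  rw [AddValuation.map_mul]
  have := add_le_add (val_natCast v n) h
  rwa [zero_add] at this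

/-- The value of the discriminant, if the values of the coefficients are bounded below by a linear function. -/
theorem le_val_disc {r : ℕ} (hr : 1 ≤ r) (P : K[X]) (a b : ℤ)
    (h : ∀ k ≤ r, ((a - k * b : ℤ) : WithTop ℤ) ≤ v (P.coeff k)) :
    (((2 * r - 2) * a - r * (r - 1) * b : ℤ) : WithTop ℤ) ≤ v (disc r P) := by
  obtain ⟨n, rfl⟩ : ∃ n, r = n + 1 := ⟨r - 1, by omega⟩
  have key := le_val_det v (sylvester (derivative P) (C ((n + 1 : ℕ) : K) * P - X * derivative P) n n)
    (fun i => ((-(i : ℤ) * b : ℤ) : WithTop ℤ))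
    (fun j => ((if (j : ℕ) < n then a + j * b else a + ((j : ℤ) - n) * b - b : ℤ) : WithTop ℤ)) ?_
  · rw [disc, resultant, Nat.add_sub_cancel]
    refine le_trans (le_of_eq ?_) key
    rw [← WithTop.coe_sum, ← WithTop.coe_sum, ← WithTop.coe_add]
    congr 1
    rw [Fin.sum_univ_add, Fin.sum_univ_add]
    simp only [Fin.val_castAdd, Fin.is_lt, if_true, Fin.val_natAdd, Nat.not_lt.2 (Nat.le_add_right _ _), if_false]
    have e1 : ∀ x : Fin n, -(((n + (x : ℕ) : ℕ)) : ℤ) * b = -(x : ℤ) * b - n * b := by
      intro x; push_cast; ring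
    have e2 : ∀ x : Fin n, a + ((((n + (x : ℕ) : ℕ)) : ℤ) - n) * b - b = -(-(x : ℤ) * b) + (a - b) := by
      intro x; push_cast; ring
    have e3 : ∀ x : Fin n, a + (x : ℤ) * b = -(-(x : ℤ) * b) + a := by
      intro x; ring
    simp only [e1, e2, e3, Finset.sum_sub_distrib, Finset.sum_add_distrib, Finset.sum_neg_distrib, Finset.sum_const,
      Finset.card_univ, Fintype.card_fin, nsmul_eq_mul]
    push_cast
    ring
  · intro i j
    have hi := i.2
    have hj := j.2
    rw [sylv_apply, ← WithTop.coe_add]
    by_cases h1 : (j : ℕ) < n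
    · rw [if_pos h1, if_pos h1]
      by_cases h2 : (j : ℕ) ≤ i ∧ (i : ℕ) ≤ j + n
      · rw [if_pos h2, coeff_snd]
        have e1 : ((n + 1 : ℕ) : K) - ((i - j : ℕ) : K) = ((n + 1 - (i - j) : ℕ) : K) := by
          rw [← Nat.cast_sub (by omega)]
        rw [e1]
        refine le_val_mul_natCast v _ _ (le_trans (le_of_eq ?_) (h (i - j) (by omega)))
        congr 1
        rw [Nat.cast_sub h2.1]
        ring
      · rw [if_neg h2, AddValuation.map_zero]
        exact le_top
    · rw [if_neg h1, if_neg h1]
      by_cases h2 : (j : ℕ) - n ≤ i ∧ (i : ℕ) ≤ j - n + n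
      · rw [if_pos h2, coeff_derivative, mul_comm (P.coeff _), ← Nat.cast_succ]
        refine le_val_mul_natCast v _ _ (le_trans (le_of_eq ?_) (h (i - (j - n) + 1) (by omega)))
        congr 1
        push_cast
        rw [Nat.cast_sub h2.1, Nat.cast_sub (by omega : n ≤ (j : ℕ))]
        ring
      · rw [if_neg h2, AddValuation.map_zero]
        exact le_top

theorem val_disc_nonneg {r : ℕ} (hr : 1 ≤ r) (P : K[X]) (h : ∀ k ≤ r, 0 ≤ v (P.coeff k)) : 0 ≤ v (disc r P) := by
  have := le_val_disc v hr P 0 0 (by simpa using h)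
  simpa using this

theorem min_le_val_disc {r : ℕ} (hr : 2 ≤ r) (P : K[X]) (h : ∀ k ≤ r, 0 ≤ v (P.coeff k)) :
    min (v (P.coeff 0)) (v (P.coeff 1)) ≤ v (disc r P) := by
  obtain ⟨n, rfl⟩ : ∃ n, r = n + 1 := ⟨r - 1, by omega⟩
  have hn : 1 ≤ n := by omega
  have key := le_val_det v (sylvester (derivative P) (C ((n + 1 : ℕ) : K) * P - X * derivative P) n n)
    (fun i => if (i : ℕ) = 0 then min (v (P.coeff 0)) (v (P.coeff 1)) else 0) (fun _ => 0) ?_
  · rw [disc, resultant, Nat.add_sub_cancel]
    refine le_trans (le_of_eq ?_) key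
    rw [Finset.sum_const_zero, add_zero, Finset.sum_eq_single (⟨0, by omega⟩ : Fin (n + n))]
    · simp
    · intro i _ hi
      rw [if_neg]
      intro h0
      exact hi (Fin.ext h0)
    · simp
  · intro i j
    have hi := i.2
    have hj := j.2
    rw [sylv_apply, add_zero]
    by_cases h1 : (j : ℕ) < n
    · rw [if_pos h1]
      by_cases h2 : (j : ℕ) ≤ i ∧ (i : ℕ) ≤ j + n
      · rw [if_pos h2, coeff_snd]
        have e1 : ((n + 1 : ℕ) : K) - ((i - j : ℕ) : K) = ((n + 1 - (i - j) : ℕ) : K) := by
          rw [← Nat.cast_sub (by omega)]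
        rw [e1]
        refine le_val_mul_natCast v _ _ ?_
        split_ifs with h3
        · have : (i : ℕ) - j = 0 := by omega
          rw [this]
          exact min_le_left _ _
        · exact h _ (by omega)
      · rw [if_neg h2, AddValuation.map_zero]
        exact le_top
    · rw [if_neg h1]
      by_cases h2 : (j : ℕ) - n ≤ i ∧ (i : ℕ) ≤ j - n + n
      · rw [if_pos h2, coeff_derivative, mul_comm (P.coeff _), ← Nat.cast_succ]
        refine le_val_mul_natCast v _ _ ?_
        split_ifs with h3
        · have : (i : ℕ) - (j - n) + 1 = 1 := by omega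
          rw [this]
          exact min_le_right _ _
        · exact h _ (by omega)
      · rw [if_neg h2, AddValuation.map_zero]
        exact le_top

end Valuation

end Pool.Agent.H45.LG
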