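import Pool.Agent.LG.Tr
import Pool.Agent.LG.Pb
import Pool.Agent.LG.Vb
import Pool.Agent.LG.Wt
import Pool.Agent.H45.LG.Disc
import Pool.Agent.H8.LG.Gauss

/-!
# LG: auxiliary lemmas for case II
-/

open Polynomial
open Pool.Agent.LG
open Pool.Agent.H45.LG (disc)

set_option linter.unusedSectionVars false

noncomputable section

namespace Pool.Agent.H45.LG

section Val

variable {K : Type} [Field K] [Algebra ℂ K] {v : K → ℤ}

theorem iv_one (hv : IV K v) : v 1 = 0 := by
  have := hv.const 1 one_ne_zero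
  rwa [map_one] at this

theorem iv_inv (hv : IV K v) {a : K} (ha : a ≠ 0) : v a⁻¹ = - v a := by
  have h := hv.mul ha (inv_ne_zero ha)
  rw [mul_inv_cancel₀ ha, iv_one hv] at h
  omega

theorem iv_div (hv : IV K v) {a b : K} (ha : a ≠ 0) (hb : b ≠ 0) : v (a / b) = v a - v b := by
  rw [div_eq_mul_inv, hv.mul ha (inv_ne_zero hb), iv_inv hv hb]
  ring

theorem iv_pow (hv : IV K v) {a : K} (ha : a ≠ 0) (m : ℕ) : v (a ^ m) = m * v a := by
  induction m with
  | zero => simp [iv_one hv]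
  | succ m ih =>
    rw [pow_succ, hv.mul (pow_ne_zero _ ha) ha, ih]
    push_cast
    ring

theorem iv_natCast (hv : IV K v) {m : ℕ} (hm : m ≠ 0) : v (m : K) = 0 := by
  have h := hv.const (m : ℂ) (by exact_mod_cast hm)
  rwa [map_natCast] at h

open Classical in
/-- the valuation with the value `⊤` at `0` -/
def av (hv : IV K v) : AddValuation K (WithTop ℤ) :=
  AddValuation.of (fun x => if x = 0 then ⊤ else (v x : WithTop ℤ)) (by simp)
    (by simp [iv_one hv])
    (by
      intro x y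
      by_cases hx : x = 0
      · simp [hx]
      by_cases hy : y = 0
      · simp [hy]
      by_cases hxy : x + y = 0
      · simp [hxy]
      simp only [hx, hy, hxy, if_false]
      rw [← WithTop.coe_min, WithTop.coe_le_coe]
      exact hv.add hx hy hxy)
    (by
      intro x y
      by_cases hx : x = 0
      · simp [hx]
      by_cases hy : y = 0
      · simp [hy]
      simp only [hx, hy, mul_eq_zero, or_self, if_false]
      rw [← WithTop.coe_add, hv.mul hx hy])

theorem av_of_ne (hv : IV K v) {x : K} (hx : x ≠ 0) : av hv x = (v x : WithTop ℤ) := by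
  simp [av, hx]

theorem av_nonneg (hv : IV K v) {x : K} (h : x ≠ 0 → 0 ≤ v x) : 0 ≤ av hv x := by
  by_cases hx : x = 0
  · rw [hx, AddValuation.map_zero]
    exact le_top
  · rw [av_of_ne hv hx]
    exact_mod_cast h hx

theorem le_av (hv : IV K v) {x : K} {a : ℤ} (h : x ≠ 0 → a ≤ v x) : (a : WithTop ℤ) ≤ av hv x := by
  by_cases hx : x = 0
  · rw [hx, AddValuation.map_zero]
    exact le_top
  · rw [av_of_ne hv hx]
    exact_mod_cast h hx

theorem of_av_nonneg (hv : IV K v) {x : K} (h : 0 ≤ av hv x) (hx : x ≠ 0) : 0 ≤ v x := by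
  rw [av_of_ne hv hx] at h
  exact_mod_cast h

theorem iv_smul (hv : IV K v) (μ : ℕ) : IV K (fun x => μ * v x) where
  mul := by
    intro a b ha hb
    rw [hv.mul ha hb]
    ring
  add := by
    intro a b ha hb hab
    have h := hv.add ha hb hab
    rcases le_total (v a) (v b) with h1 | h1
    · rw [min_eq_left h1] at h
      exact le_trans (min_le_left _ _) (mul_le_mul_of_nonneg_left h (by positivity))
    · rw [min_eq_right h1] at h
      exact le_trans (min_le_right _ _) (mul_le_mul_of_nonneg_left h (by positivity))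
  const := by
    intro c hc
    rw [hv.const c hc, mul_zero]

theorem iv_le_disc (hv : IV K v) {r : ℕ} (hr : 1 ≤ r) {P : K[X]} (a b : ℤ)
    (h : ∀ k ≤ r, P.coeff k ≠ 0 → a - k * b ≤ v (P.coeff k)) (h0 : disc r P ≠ 0) :
    (2 * r - 2) * a - r * (r - 1) * b ≤ v (disc r P) := by
  have := le_val_disc (av hv) hr P a b fun k hk => le_av hv (h k hk)
  rw [av_of_ne hv h0] at this
  exact_mod_cast this

theorem av_eval_nonneg (V : AddValuation K (WithTop ℤ)) {Q : K[X]} (hQ : ∀ i, 0 ≤ V (Q.coeff i)) {w : K} (hw : 0 ≤ V w) :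
    0 ≤ V (Q.eval w) := by
  rw [eval_eq_sum, Polynomial.sum]
  refine V.map_le_sum fun i _ => ?_
  rw [V.map_mul, V.map_pow]
  exact add_nonneg (hQ i) (nsmul_nonneg hw i)

theorem av_taylor_nonneg (V : AddValuation K (WithTop ℤ)) {Q : K[X]} (hQ : ∀ i, 0 ≤ V (Q.coeff i)) {w : K} (hw : 0 ≤ V w)
    (l : ℕ) : 0 ≤ V ((taylor w Q).coeff l) := by
  rw [taylor_coeff]
  refine av_eval_nonneg V (fun i => ?_) hw
  rw [hasseDeriv_coeff]
  exact le_val_mul_natCast V _ _ (hQ _)

/-- a coefficient of least value -/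
theorem exists_min_coeff (v : K → ℤ) {Q : K[X]} (hQ : Q ≠ 0) :
    ∃ j, Q.coeff j ≠ 0 ∧ ∀ i, Q.coeff i ≠ 0 → v (Q.coeff j) ≤ v (Q.coeff i) := by
  obtain ⟨j, hj, hmin⟩ := Q.support.exists_min_image (fun i => v (Q.coeff i)) (by simpa using hQ)
  exact ⟨j, mem_support_iff.1 hj, fun i hi => hmin i (mem_support_iff.2 hi)⟩

end Val

/-- the arithmetic of case II -/
theorem num {r μ M G A c₀ δ φ : ℤ} (hr : 3 ≤ r) (hμ : 1 ≤ μ) (hM : 1 ≤ M) (hG : 0 ≤ G) (hA : 0 ≤ A)
    (hI : (2 * r - 2) * (μ * c₀) - r * (r - 1) * (μ * A - G) ≤ μ * δ) (hδ : 0 ≤ δ) (hc : c₀ ≤ G + A)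
    (hφ : φ ≤ G + M * c₀) :
    0 ≤ δ - (2 * r - 2) * c₀ + r * (r - 1) * A ∧
      φ ≤ M * (1 + 2 * μ) * (δ - (2 * r - 2) * c₀ + r * (r - 1) * A) := by
  obtain ⟨T, hT⟩ : ∃ T, T = δ - (2 * r - 2) * c₀ + r * (r - 1) * A := ⟨_, rfl⟩
  rw [← hT]
  have e1 : r * (r - 1) * G ≤ μ * T := by
    rw [hT]
    nlinarith [hI]
  have e2 : (r - 1) * (r - 2) * A - (2 * r - 2) * G ≤ T := by
    have := mul_le_mul_of_nonneg_left hc (by linarith : (0 : ℤ) ≤ 2 * r - 2)
    rw [hT]
    nlinarith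
  have e3 : 2 * A + 8 * G ≤ (1 + 2 * μ) * T := by
    have h1 : 2 * A ≤ (r - 1) * (r - 2) * A := mul_le_mul_of_nonneg_right (by nlinarith) hA
    have h2 : 8 * G ≤ (2 * r * (r - 1) - (2 * r - 2)) * G := mul_le_mul_of_nonneg_right (by nlinarith) hG
    nlinarith
  have e4 : 0 ≤ T := by
    by_contra h
    push Not at h
    have : (1 + 2 * μ) * T < 0 := mul_neg_of_pos_of_neg (by linarith) h
    linarith
  refine ⟨e4, ?_⟩
  have e5 : M * c₀ ≤ M * (G + A) := mul_le_mul_of_nonneg_left hc (by linarith)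
  have e6 : M * (2 * A + 8 * G) ≤ M * ((1 + 2 * μ) * T) := mul_le_mul_of_nonneg_left e3 (by linarith)
  have e7 : G ≤ M * G := le_mul_of_one_le_left hG hM
  have e8 : 0 ≤ M * A := by positivity
  have e9 : 0 ≤ M * G := by positivity
  nlinarith

end Pool.Agent.H45.LG
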